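import Pool.Agent.H683.SC.Stm

/-! The number of labels is `O(m / log m)`. -/

set_option autoImplicit false

namespace Pool.Agent.H234.SCAR

open Pool.Agent.H683.SC

/-- the powers of two -/
theorem pow_bd (k : ℕ) : 3 * k + 1 ≤ 2 ^ (3 * k) := by
  have := Nat.lt_two_pow_self (n := 3 * k)
  omega

theorem bd (m : ℕ) : 2 ^ (3 * (Nat.log 2 m / 6 + 1)) + (m / (Nat.log 2 m / 6 + 1) + 1) + 5 ≤
    52 * (m / Nat.log 2 m + 1) := by
  obtain ⟨L, hL⟩ : ∃ L, L = Nat.log 2 m := ⟨_, rfl⟩
  rw [← hL]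
  obtain ⟨q, hq⟩ : ∃ q, q = m / L := ⟨_, rfl⟩
  rw [← hq]
  obtain ⟨k, hk⟩ : ∃ k, k = L / 6 := ⟨_, rfl⟩
  rw [← hk]
  rcases Nat.eq_zero_or_pos L with h0 | h0
  · -- `m ≤ 1`
    have hm : m < 2 := by
      by_contra h
      have h1 := Nat.log_pos (b := 2) (by norm_num) (show 2 ≤ m by omega)
      omega
    subst h0
    have hk0 : k = 0 := by simpa using hk
    subst hk0
    norm_num
    omega
  · have hmpos : m ≠ 0 := by
      rintro rfl
      simp at hL
      omega
    have hmq : m < L * (q + 1) := by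
      rw [hq]
      exact Nat.lt_mul_div_succ m h0
    -- the number of groups
    have hg : m / (k + 1) ≤ 6 * (q + 1) := by
      have h1 : m / (k + 1) < 6 * (q + 1) := by
        rw [Nat.div_lt_iff_lt_mul (by omega)]
        have h2 : L ≤ 6 * (k + 1) := by omega
        calc m < L * (q + 1) := hmq
          _ ≤ (6 * (k + 1)) * (q + 1) := Nat.mul_le_mul_right _ h2
          _ = 6 * (q + 1) * (k + 1) := by ring
      exact h1.le
    -- the number of assignments
    have hK : 2 ^ (3 * (k + 1)) ≤ 40 * (q + 1) := by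
      have h1 : 2 ^ (6 * k) ≤ m := by
        have h2 : 2 ^ L ≤ m := by
          rw [hL]
          exact Nat.pow_log_le_self 2 hmpos
        exact (Nat.pow_le_pow_right (by norm_num) (by omega)).trans h2
      have h3 : 2 ^ (6 * k) = 2 ^ (3 * k) * 2 ^ (3 * k) := by
        rw [← pow_add]
        congr 1
        omega
      have h4 : 2 ^ (3 * (k + 1)) = 8 * 2 ^ (3 * k) := by
        rw [show 3 * (k + 1) = 3 * k + 3 by ring, pow_add]
        norm_num
        ring
      have h5 := pow_bd k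
      have h6 : 8 * L ≤ 40 * 2 ^ (3 * k) := by omega
      rw [h4]
      have h7 : L * (8 * 2 ^ (3 * k)) ≤ L * (40 * (q + 1)) := by
        calc L * (8 * 2 ^ (3 * k)) = 8 * L * 2 ^ (3 * k) := by ring
          _ ≤ 40 * 2 ^ (3 * k) * 2 ^ (3 * k) := Nat.mul_le_mul_right _ h6
          _ = 40 * 2 ^ (6 * k) := by rw [h3]; ring
          _ ≤ 40 * m := Nat.mul_le_mul_left _ h1
          _ ≤ 40 * (L * (q + 1)) := Nat.mul_le_mul_left _ hmq.le
          _ = L * (40 * (q + 1)) := by ring
      exact Nat.le_of_mul_le_mul_left h7 h0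
    omega

theorem AR : S_AR := ⟨52, fun F => bd F.length⟩

end Pool.Agent.H234.SCAR
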